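import Pool.Agent.H45.AD.Stm
import Pool.Agent.H45.NF.AR2

set_option autoImplicit false

/-! # AD-FS (helper13) -/

namespace Pool.Agent.H13.AD.FS

open Pool.Agent.H45.AD

theorem sm_one (S : Finset ℕ) : Sm S 1 := by
  refine ⟨one_pos, fun p hp h => ?_⟩
  exfalso
  have h1 : p ∣ 1 := by exact_mod_cast h
  exact hp.one_lt.ne' (Nat.dvd_one.1 h1)

/-- the part of `N` prime to `S` -/
theorem split (S : Finset ℕ) : ∀ (n : ℕ) (N : ℤ), N ≠ 0 → N.natAbs ≤ n →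
    ∃ a b : ℤ, N = a * b ∧ Sm S b ∧ ∀ p ∈ S, p.Prime → ¬ (p : ℤ) ∣ a := by
  intro n
  induction n with
  | zero =>
    intro N hN h
    exact absurd (Int.natAbs_eq_zero.1 (Nat.le_zero.1 h)) hN
  | succ n ih =>
    intro N hN h
    by_cases hp : ∃ p ∈ S, p.Prime ∧ (p : ℤ) ∣ N
    · obtain ⟨p, hpS, hpp, N', rfl⟩ := hp
      have hN' : N' ≠ 0 := right_ne_zero_of_mul hN
      have h1 : N'.natAbs ≤ n := by
        rw [Int.natAbs_mul, Int.natAbs_natCast] at h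
        have h2 : 0 < N'.natAbs := Int.natAbs_pos.2 hN'
        have h3 := hpp.two_le
        nlinarith
      obtain ⟨a, b, h4, h5, h6⟩ := ih N' hN' h1
      refine ⟨a, p * b, by rw [h4]; ring, ⟨mul_pos (by exact_mod_cast hpp.pos) h5.1, ?_⟩, h6⟩
      intro q hq hqd
      rcases (Nat.prime_iff_prime_int.1 hq).dvd_or_dvd hqd with h7 | h7
      · have h8 : q ∣ p := by exact_mod_cast h7
        rw [(Nat.prime_dvd_prime_iff_eq hq hpp).1 h8]
        exact hpS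
      · exact h5.2 q hq h7
    · refine ⟨N, 1, by ring, sm_one S, fun p hpS hpp hd => hp ⟨p, hpS, hpp, hd⟩⟩

theorem exists_fund (S : Finset ℕ) (Z : ℝ) (d x y : ℤ) (hd : 1 ≤ d) (hx : 0 ≤ x) (hy : 1 ≤ y)
    (h : NS S Z (x ^ 2 - d * y ^ 2)) :
    ∃ x₀ y₀ : ℤ, FundS S Z d x₀ y₀ ∧ (x₀ : ℝ) + y₀ * √(d : ℝ) ≤ x + y * √(d : ℝ) := by
  classical
  have hs1 : (1 : ℝ) ≤ √(d : ℝ) := by
    rw [Real.one_le_sqrt]; exact_mod_cast hd
  obtain ⟨B, hB⟩ : ∃ B : ℝ, B = x + y * √(d : ℝ) := ⟨_, rfl⟩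
  let A : Finset (ℤ × ℤ) := ((Finset.Icc 0 ⌊B⌋) ×ˢ (Finset.Icc 1 ⌊B⌋)).filter (fun w =>
    NS S Z (w.1 ^ 2 - d * w.2 ^ 2) ∧ (w.1 : ℝ) + w.2 * √(d : ℝ) ≤ B)
  have hmem : ∀ x' y' : ℤ, 0 ≤ x' → 1 ≤ y' → NS S Z (x' ^ 2 - d * y' ^ 2) →
      (x' : ℝ) + y' * √(d : ℝ) ≤ B → (x', y') ∈ A := by
    intro x' y' hx' hy' h1 h2
    have h3 : (0 : ℝ) ≤ x' := by exact_mod_cast hx'
    have h4 : (1 : ℝ) ≤ y' := by exact_mod_cast hy'
    have h5 : (y' : ℝ) ≤ y' * √(d : ℝ) := le_mul_of_one_le_right (by linarith) hs1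
    simp only [A, Finset.mem_filter, Finset.mem_product, Finset.mem_Icc]
    refine ⟨⟨⟨hx', ?_⟩, hy', ?_⟩, h1, h2⟩
    · rw [Int.le_floor]; linarith
    · rw [Int.le_floor]; linarith
  have hne : A.Nonempty := ⟨(x, y), hmem x y hx hy h (le_of_eq hB.symm)⟩
  obtain ⟨w, hw, hmin⟩ := A.exists_min_image (fun w => (w.1 : ℝ) + w.2 * √(d : ℝ)) hne
  have hw' := hw
  simp only [A, Finset.mem_filter, Finset.mem_product, Finset.mem_Icc] at hw'
  refine ⟨w.1, w.2, ⟨hw'.1.1.1, hw'.1.2.1, hw'.2.1, ?_⟩, by rw [← hB]; exact hw'.2.2⟩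
  intro x' y' hx' hy' h1
  rcases le_total ((x' : ℝ) + y' * √(d : ℝ)) B with h2 | h2
  · exact hmin (x', y') (hmem x' y' hx' hy' h1 h2)
  · exact hw'.2.2.trans h2

/-- divisors -/
theorem ns_dvd {S : Finset ℕ} {Z : ℝ} {N M : ℤ} (h : NS S Z N) (hM : M ∣ N) (hg : N = 0 → M = 0) :
    NS S Z M := by
  obtain ⟨α, β, h1, h2, h3⟩ := h
  by_cases hN : N = 0
  · refine ⟨0, 1, by rw [hg hN]; ring, ?_, sm_one S⟩
    simp only [Int.cast_zero, abs_zero]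
    exact (abs_nonneg _).trans h2
  · have hα : α ≠ 0 := by
      rintro rfl; apply hN; rw [h1, zero_mul]
    rw [h1] at hM
    obtain ⟨α', β', h4, h5, h6⟩ := exists_dvd_and_dvd_of_dvd_mul hM
    have hβ' : β' ≠ 0 := by
      rintro rfl
      exact h3.1.ne' (zero_dvd_iff.1 h5)
    refine ⟨α' * SignType.sign β', |β'|, ?_, ?_, abs_pos.2 hβ', ?_⟩
    · rw [mul_assoc, sign_mul_abs, h6]
    · have h7 : |α' * (SignType.sign β' : ℤ)| = |α'| := by
        rcases lt_or_gt_of_ne hβ' with h | h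
        · rw [sign_neg h]; simp
        · rw [sign_pos h]; simp
      have h8 : |α'| ≤ |α| := by
        rw [Int.abs_eq_natAbs, Int.abs_eq_natAbs]
        exact_mod_cast Nat.le_of_dvd (Int.natAbs_pos.2 hα) (Int.natAbs_dvd_natAbs.2 h4)
      have h9 : ((|α' * (SignType.sign β' : ℤ)| : ℤ) : ℝ) ≤ ((|α| : ℤ) : ℝ) := by
        rw [h7]; exact_mod_cast h8
      rw [Int.cast_abs, Int.cast_abs] at h9
      exact h9.trans h2
    · intro p hp hpd
      exact h3.2 p hp (((dvd_abs _ _).1 hpd).trans h5)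

theorem coprime {S : Finset ℕ} {Z : ℝ} {d x y : ℤ} (hd : 2 ≤ d) (h : FundS S Z d x y) :
    IsCoprime x y := by
  obtain ⟨hx, hy, hZ, hmin⟩ := h
  rw [Int.isCoprime_iff_gcd_eq_one]
  by_contra hg
  obtain ⟨g, hgg⟩ : ∃ g : ℕ, g = Int.gcd x y := ⟨_, rfl⟩
  rw [← hgg] at hg
  obtain ⟨a, ha⟩ : (g : ℤ) ∣ x := by rw [hgg]; exact Int.gcd_dvd_left ..
  obtain ⟨b, hb⟩ : (g : ℤ) ∣ y := by rw [hgg]; exact Int.gcd_dvd_right ..
  have hg0 : g ≠ 0 := by
    rintro rfl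
    rw [Nat.cast_zero, zero_mul] at hb
    omega
  have hg2 : (2 : ℤ) ≤ g := by omega
  have hb1 : 1 ≤ b := by
    by_contra hcon
    nlinarith
  have ha0 : 0 ≤ a := by
    by_contra hcon
    nlinarith
  have h1 : x ^ 2 - d * y ^ 2 = (g : ℤ) ^ 2 * (a ^ 2 - d * b ^ 2) := by rw [ha, hb]; ring
  have h2 : NS S Z (a ^ 2 - d * b ^ 2) := by
    refine ns_dvd hZ ⟨(g : ℤ) ^ 2, by rw [h1]; ring⟩ fun h0 => ?_
    rw [h1] at h0
    exact (mul_eq_zero.1 h0).resolve_left (pow_ne_zero 2 (by omega))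
  have h3 := hmin a b ha0 hb1 h2
  have hs1 : (1 : ℝ) ≤ √(d : ℝ) := by
    rw [Real.one_le_sqrt]; exact_mod_cast (by omega : 1 ≤ d)
  have h4 : (1 : ℝ) ≤ b := by exact_mod_cast hb1
  have h5 : (0 : ℝ) ≤ a := by exact_mod_cast ha0
  have h6 : (2 : ℝ) ≤ g := by exact_mod_cast hg2
  rw [ha, hb] at h3
  push_cast at h3
  have h7 : 0 < (a : ℝ) + b * √(d : ℝ) := by positivity
  nlinarith

theorem norm_ne {S : Finset ℕ} {Z : ℝ} {d x y : ℤ} (hd : 2 ≤ d) (hsq : Squarefree d)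
    (h : FundS S Z d x y) : x ^ 2 - d * y ^ 2 ≠ 0 := by
  intro h0
  have hco := coprime hd h
  have h2 : y ^ 2 ∣ x ^ 2 := ⟨d, by linarith⟩
  have h3 : IsCoprime (y ^ 2) (x ^ 2) := (hco.symm.pow_left).pow_right
  have h4 : IsUnit (y ^ 2) := h3.isUnit_of_dvd' (dvd_refl _) h2
  rw [Int.isUnit_iff] at h4
  have h5 : y ^ 2 = 1 := by
    rcases h4 with h4 | h4
    · exact h4
    · nlinarith [sq_nonneg y]
  rw [h5, mul_one] at h0
  have h6 : x * x ∣ d := ⟨1, by linarith⟩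
  have h7 := hsq x h6
  rw [Int.isUnit_iff] at h7
  rcases h7 with h7 | h7
  · rw [h7] at h0
    omega
  · rw [h7] at h0
    omega

/-- the norms of the two auxiliary elements -/
theorem ns_small {S : Finset ℕ} {Z z : ℝ} {n e κ : ℤ} (hn : 1 ≤ n) (he : 1 ≤ e)
    (hκ : κ = 1 ∨ κ = 2) (hZ : NS S Z (n ^ 2)) (hez : (e : ℝ) ≤ z) (hzZ : 4 * z ^ 2 ≤ Z) :
    NS S Z (e * (κ * n)) ∧ NS S Z (-(e * (κ * n))) := by
  obtain ⟨α, β, h1, h2, h3⟩ := hZ
  obtain ⟨a, b, h4, h5, h6⟩ := split S _ n (by omega) le_rfl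
  have hα0 : α ≠ 0 := by
    rintro rfl
    rw [zero_mul] at h1
    exact (by positivity : (0 : ℤ) < n ^ 2).ne' h1
  have hcop : IsCoprime (a ^ 2) β := by
    refine IsCoprime.pow_left ?_
    rw [Int.isCoprime_iff_gcd_eq_one]
    by_contra hg
    obtain ⟨p, hp, hpg⟩ := Nat.exists_prime_and_dvd hg
    have hpa := (Int.natCast_dvd_natCast.2 hpg).trans (Int.gcd_dvd_left ..)
    have hpb := (Int.natCast_dvd_natCast.2 hpg).trans (Int.gcd_dvd_right ..)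
    exact h6 p (h3.2 p hp hpb) hp hpa
  have h7 : a ^ 2 ∣ α := by
    refine hcop.dvd_of_dvd_mul_right ?_
    rw [← h1, h4, mul_pow]
    exact dvd_mul_right _ _
  have h8 : a ^ 2 ≤ |α| := by
    have h9 := Int.le_of_dvd (abs_pos.2 hα0) ((dvd_abs _ _).2 h7)
    exact h9
  have h9 : (a : ℝ) ^ 2 ≤ Z := by
    have : ((a ^ 2 : ℤ) : ℝ) ≤ ((|α| : ℤ) : ℝ) := by exact_mod_cast h8
    push_cast at this
    exact this.trans h2
  have he1 : (1 : ℝ) ≤ e := by exact_mod_cast he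
  have hz1 : (1 : ℝ) ≤ z := he1.trans hez
  have hκ1 : (0 : ℝ) < κ ∧ (κ : ℝ) ≤ 2 := by
    rcases hκ with rfl | rfl <;> norm_num
  have hZ0 : 0 < Z := lt_of_lt_of_le (by positivity) hzZ
  have h10 : |((e * κ * a : ℤ) : ℝ)| ≤ Z := by
    push_cast
    rw [abs_mul, abs_of_pos (mul_pos (by linarith) hκ1.1)]
    have h11 : (e : ℝ) * κ ≤ 2 * z := by nlinarith
    have h12 : (2 * z * |(a : ℝ)|) ^ 2 ≤ Z ^ 2 := by
      have h13 : (2 * z * |(a : ℝ)|) ^ 2 = (4 * z ^ 2) * (a : ℝ) ^ 2 := by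
        rw [mul_pow, sq_abs]; ring
      rw [h13, sq Z]
      exact mul_le_mul hzZ h9 (sq_nonneg _) hZ0.le
    have h14 : 2 * z * |(a : ℝ)| ≤ Z := by
      exact (pow_le_pow_iff_left₀ (by positivity) hZ0.le two_ne_zero).1 h12
    exact (mul_le_mul_of_nonneg_right h11 (abs_nonneg _)).trans h14
  constructor
  · exact ⟨e * κ * a, b, by linear_combination e * κ * h4, h10, h5⟩
  · refine ⟨-(e * κ * a), b, by linear_combination -e * κ * h4, ?_, h5⟩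
    rw [Int.cast_neg, abs_neg]
    exact h10

theorem big {S : Finset ℕ} {Z z : ℝ} {d x y n : ℤ} (hd : 2 ≤ d) (hsq : Squarefree d)
    (hF : FundS S Z d x y) (hn : 1 ≤ n) (h : x ^ 2 - d * y ^ 2 = n ^ 2) (hz : 1 ≤ z)
    (hzZ : 4 * z ^ 2 ≤ Z) (hzd : 4 * z ^ 2 < d) : BF z d x y n := by
  obtain ⟨e, e', r, s, κ, he, he', hr, hs, hd', hκ, h1, h2, h3, h4, h5, h6⟩ :=
    Pool.Agent.H45.NF.ar2 hd hsq hF.1 hF.2.1 hn (coprime hd hF) h
  have hns : NS S Z (n ^ 2) := h ▸ hF.2.2.1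
  -- `2 r s = κ y`, `e' s² + e r² = κ x`
  have k1 : 2 * (r * s) = κ * y := by
    have : n * (2 * (r * s)) = n * (κ * y) := by
      linear_combination s * h2 - r * h1 + y * h3
    exact mul_left_cancel₀ (by omega) this
  have k2 : e' * s ^ 2 + e * r ^ 2 = κ * x := by
    have : y * (e' * s ^ 2 + e * r ^ 2) = y * (κ * x) := by
      linear_combination -(s * h2) - r * h1 + x * k1
    exact mul_left_cancel₀ (by have := hF.2.1; omega) this
  have hd0 : (0 : ℝ) ≤ (d : ℝ) := by exact_mod_cast (by omega : 0 ≤ d)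
  have hss : √(d : ℝ) * √(d : ℝ) = d := Real.mul_self_sqrt hd0
  have hx0 : (0 : ℝ) ≤ x := by exact_mod_cast hF.1
  have hy1 : (1 : ℝ) ≤ y := by exact_mod_cast hF.2.1
  have hsd : 2 * z < √(d : ℝ) := by
    apply Real.lt_sqrt_of_sq_lt
    nlinarith
  have ht : 2 * z < (x : ℝ) + y * √(d : ℝ) := by nlinarith
  have hκr : (0 : ℝ) < κ ∧ (κ : ℝ) ≤ 2 := by
    rcases hκ with rfl | rfl <;> norm_num
  have k1r : 2 * ((r : ℝ) * s) = κ * y := by exact_mod_cast k1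
  have k2r : (e' : ℝ) * s ^ 2 + e * r ^ 2 = κ * x := by exact_mod_cast k2
  have hdr : (e : ℝ) * e' = d := by exact_mod_cast hd'
  have hs0 := Real.sqrt_nonneg (d : ℝ)
  have he1 : (1 : ℝ) ≤ e := by exact_mod_cast he
  have he1' : (1 : ℝ) ≤ e' := by exact_mod_cast he'
  have hr1 : (1 : ℝ) ≤ r := by exact_mod_cast hr
  have hs1 : (1 : ℝ) ≤ s := by exact_mod_cast hs
  refine ⟨e, e', r, s, κ, he, he', hr, hs, hd', hκ, h1, h2, h3, h4, h5, ?_, ?_⟩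
  · by_contra hcon
    push Not at hcon
    have h7 : NS S Z ((e * r) ^ 2 - d * s ^ 2) := by
      have h8 : (e * r) ^ 2 - d * s ^ 2 = -(e * (κ * n)) := by
        rw [← hd', ← h3]; ring
      rw [h8]
      exact (ns_small hn he hκ hns hcon hzZ).2
    have h9 := hF.2.2.2 (e * r) s (by positivity) hs h7
    push_cast at h9
    have h10 : ((e : ℝ) * r + s * √(d : ℝ)) ^ 2 = κ * e * (x + y * √(d : ℝ)) := by
      have e1 : ((e : ℝ) * r + s * √(d : ℝ)) ^ 2 =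
          e * (e * r ^ 2) + s ^ 2 * (√(d : ℝ) * √(d : ℝ)) + e * √(d : ℝ) * (2 * (r * s)) := by ring
      rw [e1, hss, ← hdr, k1r]
      linear_combination e * k2r
    have h11 : ((x : ℝ) + y * √(d : ℝ)) ^ 2 ≤ κ * e * (x + y * √(d : ℝ)) := by
      rw [← h10]
      exact pow_le_pow_left₀ (by positivity) h9 2
    have h12 : (x : ℝ) + y * √(d : ℝ) ≤ κ * e := by
      have hpos : 0 < (x : ℝ) + y * √(d : ℝ) := by linarith
      rw [sq] at h11
      exact le_of_mul_le_mul_right h11 hpos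
    nlinarith
  · by_contra hcon
    push Not at hcon
    have h7 : NS S Z ((e' * s) ^ 2 - d * r ^ 2) := by
      have h8 : (e' * s) ^ 2 - d * r ^ 2 = e' * (κ * n) := by
        rw [← hd', ← h3]; ring
      rw [h8]
      exact (ns_small hn he' hκ hns hcon hzZ).1
    have h9 := hF.2.2.2 (e' * s) r (by positivity) hr h7
    push_cast at h9
    have h10 : ((e' : ℝ) * s + r * √(d : ℝ)) ^ 2 = κ * e' * (x + y * √(d : ℝ)) := by
      have e1 : ((e' : ℝ) * s + r * √(d : ℝ)) ^ 2 =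
          e' * (e' * s ^ 2) + r ^ 2 * (√(d : ℝ) * √(d : ℝ)) + e' * √(d : ℝ) * (2 * (r * s)) := by
        ring
      rw [e1, hss, ← hdr, k1r]
      linear_combination e' * k2r
    have h11 : ((x : ℝ) + y * √(d : ℝ)) ^ 2 ≤ κ * e' * (x + y * √(d : ℝ)) := by
      rw [← h10]
      exact pow_le_pow_left₀ (by positivity) h9 2
    have h12 : (x : ℝ) + y * √(d : ℝ) ≤ κ * e' := by
      have hpos : 0 < (x : ℝ) + y * √(d : ℝ) := by linarith
      rw [sq] at h11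
      exact le_of_mul_le_mul_right h11 hpos
    nlinarith

theorem t : StmtFS :=
  ⟨fun S N hN => split S _ N hN le_rfl, exists_fund,
    fun _ _ _ _ _ hd hsq h => ⟨coprime hd h, norm_ne hd hsq h⟩,
    fun _ _ _ _ _ _ _ hd hsq hF hn h hz h1 h2 => big hd hsq hF hn h hz h1 h2⟩

end Pool.Agent.H13.AD.FS
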