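import Pool.Agent.H45.AD.Stm
import Pool.Agent.H45.Lib.S8.W803.HZ.DET

set_option autoImplicit false

/-! # AD-PD (helper13) -/

namespace Pool.Agent.H13.AD.PD

open Polynomial Finset

theorem t : Pool.Agent.H45.AD.StmtPD := by
  intro p a k m E P Q τ R hp hdvd hE
  choose η hη using hdvd
  obtain ⟨z, hz⟩ : ∃ z : Fin m ⊕ Fin m → ℤ, z = fun i => (p : ℤ) ^ a * τ i := ⟨_, rfl⟩
  obtain ⟨L, hL⟩ : ∃ L, L = R.natDegree + m + 1 := ⟨_, rfl⟩
  let V : Bool × Fin L → Fin m ⊕ Fin m → ℤ := fun κ =>
    if κ.1 then Sum.elim (fun j => ((X : ℤ[X]) ^ (j : ℕ)).coeff κ.2) (fun _ => 0)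
    else Sum.elim (fun j => ((X : ℤ[X]) ^ (j : ℕ) * R).coeff κ.2)
      (fun j => ((X : ℤ[X]) ^ (j : ℕ)).coeff κ.2)
  let c : Fin m ⊕ Fin m → Bool × Fin L → ℤ := fun i κ =>
    (if κ.1 then (p : ℤ) ^ k * η i else Q i) * z i ^ (κ.2 : ℕ)
  let v : Fin m ⊕ Fin m → ℤ := Sum.elim (fun j => ((p : ℤ) ^ a) ^ (j : ℕ))
    (fun j => ((p : ℤ) ^ a) ^ (j : ℕ))
  have hev : ∀ (G : ℤ[X]) (x : ℤ), G.natDegree < L →
      ∑ e : Fin L, G.coeff e * x ^ (e : ℕ) = G.eval x := by
    intro G x hG
    rw [eval_eq_sum_range' hG, Finset.sum_range]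
  have hXd : ∀ j : Fin m, ((X : ℤ[X]) ^ (j : ℕ)).natDegree < L := by
    intro j
    rw [natDegree_X_pow]
    have := j.2
    omega
  have hXR : ∀ j : Fin m, ((X : ℤ[X]) ^ (j : ℕ) * R).natDegree < L := by
    intro j
    refine lt_of_le_of_lt natDegree_mul_le ?_
    rw [natDegree_X_pow]
    have := j.2
    omega
  have hrow : (Matrix.of fun i j => v j * Pool.Agent.W223.HZ.Mat m P Q τ i j) =
      fun i => ∑ κ : Bool × Fin L, c i κ • V κ := by
    funext i j
    rw [Finset.sum_apply, Fintype.sum_prod_type, Fintype.sum_bool]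
    simp only [Matrix.of_apply, V, c, Pi.smul_apply, smul_eq_mul, if_true, Bool.false_eq_true,
      if_false]
    rcases j with j | j
    · simp only [Sum.elim_inl, v, Pool.Agent.W223.HZ.Mat, Matrix.of_apply]
      have h1 : ∑ x : Fin L, (p : ℤ) ^ k * η i * z i ^ (x : ℕ) * ((X : ℤ[X]) ^ (j : ℕ)).coeff x =
          (p : ℤ) ^ k * η i * z i ^ (j : ℕ) := by
        rw [← eval_X (x := z i), ← eval_pow, eval_X, ← hev _ _ (hXd j), Finset.mul_sum]
        exact Finset.sum_congr rfl fun x _ => by ring
      have h2 : ∑ x : Fin L, Q i * z i ^ (x : ℕ) * ((X : ℤ[X]) ^ (j : ℕ) * R).coeff x =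
          Q i * (z i ^ (j : ℕ) * R.eval (z i)) := by
        have h3 : z i ^ (j : ℕ) * R.eval (z i) = ((X : ℤ[X]) ^ (j : ℕ) * R).eval (z i) := by
          rw [eval_mul, eval_pow, eval_X]
        rw [h3, ← hev _ _ (hXR j), Finset.mul_sum]
        exact Finset.sum_congr rfl fun x _ => by ring
      rw [h1, h2]
      have h4 := hη i
      rw [← show z i = (p : ℤ) ^ a * τ i from congrFun hz i] at h4
      have h5 : z i ^ (j : ℕ) = ((p : ℤ) ^ a) ^ (j : ℕ) * τ i ^ (j : ℕ) := by
        rw [hz, mul_pow]
      rw [← mul_assoc, mul_comm (((p : ℤ) ^ a) ^ (j : ℕ)) (P i), mul_assoc, ← h5]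
      linear_combination z i ^ (j : ℕ) * h4
    · simp only [Sum.elim_inr, v, Pool.Agent.W223.HZ.Mat, Matrix.of_apply, mul_zero,
        Finset.sum_const_zero, zero_add]
      have h1 : ∑ x : Fin L, Q i * z i ^ (x : ℕ) * ((X : ℤ[X]) ^ (j : ℕ)).coeff x =
          Q i * z i ^ (j : ℕ) := by
        have h3 : z i ^ (j : ℕ) = ((X : ℤ[X]) ^ (j : ℕ)).eval (z i) := by
          rw [eval_pow, eval_X]
        rw [h3, ← hev _ _ (hXd j), Finset.mul_sum]
        exact Finset.sum_congr rfl fun x _ => by ring
      rw [h1]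
      have h5 : z i ^ (j : ℕ) = ((p : ℤ) ^ a) ^ (j : ℕ) * τ i ^ (j : ℕ) := by
        rw [hz, mul_pow]
      rw [h5]; ring
  have hdet : Matrix.det (Matrix.of fun i j => v j * Pool.Agent.W223.HZ.Mat m P Q τ i j) =
      ∑ f : Fin m ⊕ Fin m → Bool × Fin L, (∏ i, c i (f i)) *
        Matrix.det (Matrix.of fun i => V (f i)) := by
    rw [hrow]
    have h1 := (Matrix.detRowAlternating (n := Fin m ⊕ Fin m) (R := ℤ)).toMultilinearMap.map_sum
      (fun (i : Fin m ⊕ Fin m) (κ : Bool × Fin L) => c i κ • V κ)
    have h2 : ∀ f : Fin m ⊕ Fin m → Bool × Fin L,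
        (Matrix.detRowAlternating (n := Fin m ⊕ Fin m) (R := ℤ)).toMultilinearMap
          (fun i => c i (f i) • V (f i)) = (∏ i, c i (f i)) *
            Matrix.det (Matrix.of fun i => V (f i)) :=
      fun f => by
        rw [MultilinearMap.map_smul_univ, smul_eq_mul]
        rfl
    simp only [h2] at h1
    exact h1
  rw [Matrix.det_mul_row] at hdet
  have hv : ∏ i, v i = (p : ℤ) ^ (a * (m * (m - 1))) := by
    rw [Fintype.prod_sum_type]
    simp only [v, Sum.elim_inl, Sum.elim_inr]
    rw [Finset.prod_pow_eq_pow_sum, ← pow_mul, ← pow_add]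
    congr 1
    have h1 : ∑ i : Fin m, (i : ℕ) = ∑ i ∈ Finset.range m, i := by rw [Finset.sum_range]
    have h2 := Finset.sum_range_id_mul_two m
    rw [h1, ← mul_add, ← h2]
    congr 1
    ring
  rw [hv] at hdet
  have hp0 : (p : ℤ) ≠ 0 := by exact_mod_cast (by omega : p ≠ 0)
  have hkey : (p : ℤ) ^ (a * (m * (m - 1)) + E) ∣
      ∑ f : Fin m ⊕ Fin m → Bool × Fin L, (∏ i, c i (f i)) *
        Matrix.det (Matrix.of fun i => V (f i)) := by
    refine Finset.dvd_sum fun f _ => ?_
    by_cases hf : Function.Injective f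
    · refine Dvd.dvd.mul_right ?_ _
      obtain ⟨s, hs⟩ : ∃ s, s = (univ.filter fun i => (f i).1 = true).card := ⟨_, rfl⟩
      obtain ⟨T, hT⟩ : ∃ T, T = ∑ i, ((f i).2 : ℕ) := ⟨_, rfl⟩
      have h1 : (p : ℤ) ^ (k * s + a * T) ∣ ∏ i, c i (f i) := by
        have h2 : ∏ i, (((if (f i).1 = true then (p : ℤ) ^ k else 1) *
            ((p : ℤ) ^ a) ^ ((f i).2 : ℕ))) ∣ ∏ i, c i (f i) := by
          refine Finset.prod_dvd_prod_of_dvd _ _ fun i _ => ?_
          simp only [c, hz, mul_pow]
          refine mul_dvd_mul ?_ (dvd_mul_right _ _)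
          split_ifs
          · exact dvd_mul_right _ _
          · exact one_dvd _
        rw [Finset.prod_mul_distrib, Finset.prod_pow_eq_pow_sum, Finset.prod_ite,
          Finset.prod_const_one, mul_one, Finset.prod_const, ← pow_mul, ← pow_mul, ← pow_add,
          ← hs, ← hT] at h2
        exact h2
      refine (pow_dvd_pow _ ?_).trans h1
      have ht := Pool.Agent.W803.HZ.DET.sum_ge' f hf true
      have hff := Pool.Agent.W803.HZ.DET.sum_ge' f hf false
      rw [← hs] at ht
      have hcard : (univ.filter fun i => (f i).1 = false).card = 2 * m - s ∧ s ≤ 2 * m := by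
        have h3 := Finset.card_filter_add_card_filter_not (s := (univ : Finset (Fin m ⊕ Fin m)))
          (fun i => (f i).1 = true)
        rw [Finset.card_univ, Fintype.card_sum, Fintype.card_fin] at h3
        have h4 : (univ.filter fun i => ¬ (f i).1 = true) =
            univ.filter fun i => (f i).1 = false := by
          refine Finset.filter_congr fun i _ => ?_
          simp
        rw [h4, ← hs] at h3
        omega
      rw [hcard.1] at hff
      have hsum : T =
          ∑ i ∈ univ.filter (fun i => (f i).1 = true), ((f i).2 : ℕ) +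
            ∑ i ∈ univ.filter (fun i => (f i).1 = false), ((f i).2 : ℕ) := by
        rw [hT, ← Finset.sum_filter_add_sum_filter_not univ (fun i => (f i).1 = true)]
        congr 1
        refine Finset.sum_congr (Finset.filter_congr fun i _ => ?_) fun _ _ => rfl
        simp
      -- triangular numbers
      have htri : ∀ n : ℕ, 2 * (n * (n - 1) / 2) = n * (n - 1) := fun n =>
        Nat.mul_div_cancel' (Nat.even_mul_pred_self n).two_dvd
      have h5 : s * (s - 1) + (2 * m - s) * (2 * m - s - 1) ≤ 2 * T := by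
        have e1 := htri s
        have e2 := htri (2 * m - s)
        omega
      rcases le_total s m with hsm | hsm
      · obtain ⟨u, rfl⟩ : ∃ u, m = s + u := ⟨m - s, by omega⟩
        have h6 := hE u (by omega)
        rw [show s + u - u = s by omega] at h6
        have h7 : (s + u) * (s + u - 1) + u ^ 2 ≤ T := by
          rw [show 2 * (s + u) - s = s + 2 * u by omega] at h5
          rcases s with _ | s
          · rcases u with _ | u
            · simp
            · simp only [zero_add] at h5 ⊢
              rw [show 2 * (u + 1) - 1 = 2 * u + 1 by omega] at h5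
              rw [show u + 1 - 1 = u by omega]
              nlinarith
          · rw [show s + 1 - 1 = s by omega, show s + 1 + 2 * u - 1 = s + 2 * u by omega] at h5
            rw [show s + 1 + u - 1 = s + u by omega]
            nlinarith
        calc a * ((s + u) * (s + u - 1)) + E ≤ a * ((s + u) * (s + u - 1)) + (k * s + a * u ^ 2) :=
              Nat.add_le_add_left h6 _
          _ = k * s + a * ((s + u) * (s + u - 1) + u ^ 2) := by ring
          _ ≤ k * s + a * T := Nat.add_le_add_left (Nat.mul_le_mul_left _ h7) _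
      · have h6 := hE 0 (Nat.zero_le _)
        have h7 : m * (m - 1) ≤ T := by
          obtain ⟨u, hu⟩ : ∃ u, 2 * m = s + u := ⟨2 * m - s, by omega⟩
          obtain ⟨w, hw⟩ : ∃ w, s = u + 2 * w := ⟨s - m, by omega⟩
          have hm : m = u + w := by omega
          rw [show 2 * m - s = u by omega, hw] at h5
          rw [hm]
          rcases u with _ | u
          · rcases w with _ | w
            · simp
            · simp only [zero_add] at h5 ⊢
              rw [show 2 * (w + 1) - 1 = 2 * w + 1 by omega] at h5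
              rw [show w + 1 - 1 = w by omega]
              nlinarith
          · rw [show u + 1 - 1 = u by omega, show u + 1 + 2 * w - 1 = u + 2 * w by omega] at h5
            rw [show u + 1 + w - 1 = u + w by omega]
            nlinarith
        have h8 : k * m ≤ k * s := Nat.mul_le_mul_left _ hsm
        have h9 : a * (m * (m - 1)) ≤ a * T := Nat.mul_le_mul_left _ h7
        simp only [Nat.sub_zero, ne_eq, OfNat.ofNat_ne_zero, not_false_eq_true, zero_pow,
          mul_zero, add_zero] at h6
        omega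
    · have hd : Matrix.det (Matrix.of fun i => V (f i)) = 0 := by
        rw [Function.not_injective_iff] at hf
        obtain ⟨i, j, hij, hne⟩ := hf
        exact Matrix.det_zero_of_row_eq hne (congrArg V hij)
      rw [hd, mul_zero]
      exact dvd_zero _
  rw [← hdet, pow_add] at hkey
  exact (mul_dvd_mul_iff_left (pow_ne_zero _ hp0)).1 hkey

end Pool.Agent.H13.AD.PD
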