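import Pool.Agent.H45.AD.Stm

set_option autoImplicit false

/-! # AD-RT (helper13) -/

namespace Pool.Agent.H13.AD.RT

open Polynomial

theorem root (p : ℕ) (N₀ M ρ c : ℤ) (h1 : (p : ℤ) ∣ ρ ^ 2 - N₀) (h2 : (p : ℤ) ∣ 2 * ρ * c - 1) :
    ∀ k : ℕ, ∃ R : ℤ[X], ∀ z : ℤ, (p : ℤ) ∣ z → (p : ℤ) ∣ R.eval z - ρ ∧
      (p : ℤ) ^ (k + 1) ∣ (R.eval z) ^ 2 - (N₀ + M * z) := by
  intro k
  induction k with
  | zero =>
    refine ⟨C ρ, fun z hz => ⟨by simp, ?_⟩⟩
    rw [eval_C, zero_add, pow_one, show ρ ^ 2 - (N₀ + M * z) = (ρ ^ 2 - N₀) - M * z by ring]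
    exact dvd_sub h1 (hz.mul_left M)
  | succ k ih =>
    obtain ⟨R, hR⟩ := ih
    refine ⟨R - C c * (R ^ 2 - (C N₀ + C M * X)), fun z hz => ?_⟩
    obtain ⟨h3, h4⟩ := hR z hz
    simp only [eval_sub, eval_mul, eval_C, eval_pow, eval_add, eval_X]
    obtain ⟨e, he⟩ : ∃ e, e = (R.eval z) ^ 2 - (N₀ + M * z) := ⟨_, rfl⟩
    rw [← he] at h4 ⊢
    have h5 : (p : ℤ) ∣ e := (dvd_pow_self _ (Nat.succ_ne_zero k)).trans h4
    constructor
    · rw [show R.eval z - c * e - ρ = (R.eval z - ρ) - c * e by ring]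
      exact dvd_sub h3 (h5.mul_left c)
    · have h6 : (R.eval z - c * e) ^ 2 - (N₀ + M * z) =
          -(e * (2 * (R.eval z - ρ) * c + (2 * ρ * c - 1))) + c ^ 2 * (e * e) := by
        have : N₀ + M * z = (R.eval z) ^ 2 - e := by rw [he]; ring
        rw [this]; ring
      rw [h6, pow_succ]
      refine dvd_add (Dvd.dvd.neg_right ?_) ?_
      · exact mul_dvd_mul h4 (dvd_add ((h3.mul_left 2).mul_right c) h2)
      · exact (mul_dvd_mul h4 h5).mul_left _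

theorem t : Pool.Agent.H45.AD.StmtRT := by
  refine ⟨?_, ?_⟩
  · intro p k N₀ M hp hp2 hN hsq
    have : Fact p.Prime := ⟨hp⟩
    obtain ⟨s, hs⟩ := hsq
    obtain ⟨ρ, rfl⟩ := ZMod.intCast_surjective s
    have h1 : (p : ℤ) ∣ ρ ^ 2 - N₀ := by
      rw [← ZMod.intCast_zmod_eq_zero_iff_dvd _ p]
      push_cast
      rw [hs]; ring
    have hρ : ¬ (p : ℤ) ∣ ρ := by
      intro h
      apply hN
      have h3 : (p : ℤ) ∣ ρ ^ 2 := dvd_pow h two_ne_zero
      have h4 := dvd_sub h3 h1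
      rwa [sub_sub_cancel] at h4
    have hpi : Prime (p : ℤ) := Nat.prime_iff_prime_int.1 hp
    have h2ρ : IsCoprime (p : ℤ) (2 * ρ) := by
      rw [hpi.coprime_iff_not_dvd]
      intro h
      rcases hpi.dvd_or_dvd h with h | h
      · have h4 : p ∣ 2 := by exact_mod_cast h
        exact hp2 ((Nat.prime_dvd_prime_iff_eq hp Nat.prime_two).1 h4)
      · exact hρ h
    obtain ⟨u, c, huc⟩ := h2ρ
    have h2 : (p : ℤ) ∣ 2 * ρ * c - 1 := ⟨-u, by linear_combination huc⟩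
    obtain ⟨R, hR⟩ := root p N₀ M ρ c h1 h2 k
    exact ⟨R, fun z hz => (pow_dvd_pow _ (Nat.le_succ k)).trans (hR z hz).2⟩
  · intro p k l r x y hp hp2 hl hxy h1 h2
    rcases Nat.eq_zero_or_pos k with rfl | hk
    · left; simp
    have hpi : Prime (p : ℤ) := Nat.prime_iff_prime_int.1 hp
    have h3 : (p : ℤ) ^ k ∣ (x - r * y) * (x + r * y) := by
      rw [show (x - r * y) * (x + r * y) = (x ^ 2 - l * y ^ 2) - (r ^ 2 - l) * y ^ 2 by ring]
      exact dvd_sub h2 (h1.mul_right _)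
    have hpk : (p : ℤ) ∣ (p : ℤ) ^ k := dvd_pow_self _ hk.ne'
    have hr : ¬ (p : ℤ) ∣ r := by
      intro h
      apply hl
      have h5 : (p : ℤ) ∣ r ^ 2 := dvd_pow h two_ne_zero
      have h6 := dvd_sub h5 (hpk.trans h1)
      rwa [sub_sub_cancel] at h6
    have hp2' : ¬ (p : ℤ) ∣ 2 := by
      intro h
      have h4 : p ∣ 2 := by exact_mod_cast h
      exact hp2 ((Nat.prime_dvd_prime_iff_eq hp Nat.prime_two).1 h4)
    have hboth : ¬ ((p : ℤ) ∣ x - r * y ∧ (p : ℤ) ∣ x + r * y) := by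
      rintro ⟨h5, h6⟩
      have h7 : (p : ℤ) ∣ 2 * x := by
        have := dvd_add h5 h6
        rwa [show x - r * y + (x + r * y) = 2 * x by ring] at this
      have h8 : (p : ℤ) ∣ 2 * (r * y) := by
        have := dvd_sub h6 h5
        rwa [show x + r * y - (x - r * y) = 2 * (r * y) by ring] at this
      have h9 : (p : ℤ) ∣ x := (hpi.dvd_or_dvd h7).resolve_left hp2'
      have h10 : (p : ℤ) ∣ y :=
        (hpi.dvd_or_dvd ((hpi.dvd_or_dvd h8).resolve_left hp2')).resolve_left hr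
      exact hpi.not_isUnit (hxy.isUnit_of_dvd' h9 h10)
    by_cases h5 : (p : ℤ) ∣ x - r * y
    · left
      have h6 : ¬ (p : ℤ) ∣ x + r * y := fun h => hboth ⟨h5, h⟩
      have h7 : IsCoprime ((p : ℤ) ^ k) (x + r * y) := (hpi.coprime_iff_not_dvd.2 h6).pow_left
      exact h7.dvd_of_dvd_mul_right h3
    · right
      have h7 : IsCoprime ((p : ℤ) ^ k) (x - r * y) := (hpi.coprime_iff_not_dvd.2 h5).pow_left
      exact h7.dvd_of_dvd_mul_left h3

end Pool.Agent.H13.AD.RT
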